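import Pool.Agent.Lib.MP_6bc78b_nt.MS.QZ.Iface
import Pool.Agent.Lib.MP_6bc78b_nt.MS.P4.H70.QSA

/-! Project MS, Part QZ, module GLB: many good zeros, weighted. -/

set_option autoImplicit false

open Complex Filter Topology MeasureTheory ArithmeticFunction

namespace Pool.Agent.Lib.MP_6bc78b_nt.MS.QZ.H40

open Pool.Agent.Lib.MP_6bc78b_nt.MS Pool.Agent.Lib.MP_6bc78b_nt.MS.P1
  Pool.Agent.Lib.MP_6bc78b_nt.MS.QZ

theorem cG_pos {T : ℝ} (hT : 1 < T) : 0 < cG T := by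
  have hl := Real.log_pos hT
  have h0 : 0 < T := by linarith
  have : 0 < DD T := div_pos h0 (Real.rpow_pos_of_pos hl _)
  exact div_pos this (by positivity)

/-- Cauchy–Schwarz with weights. -/
theorem cs {ι : Type*} (s : Finset ι) (a b : ι → ℝ) (ha : ∀ i ∈ s, 0 ≤ a i) :
    ∑ i ∈ s, a i * b i ≤ Real.sqrt (∑ i ∈ s, a i) * Real.sqrt (∑ i ∈ s, a i * b i ^ 2) := by
  have h := Finset.sum_mul_sq_le_sq_mul_sq s (fun i => Real.sqrt (a i))
    (fun i => Real.sqrt (a i) * b i)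
  have e1 : ∑ i ∈ s, Real.sqrt (a i) * (Real.sqrt (a i) * b i) = ∑ i ∈ s, a i * b i :=
    Finset.sum_congr rfl fun i hi => by rw [← mul_assoc, Real.mul_self_sqrt (ha i hi)]
  have e2 : ∑ i ∈ s, Real.sqrt (a i) ^ 2 = ∑ i ∈ s, a i :=
    Finset.sum_congr rfl fun i hi => Real.sq_sqrt (ha i hi)
  have e3 : ∑ i ∈ s, (Real.sqrt (a i) * b i) ^ 2 = ∑ i ∈ s, a i * b i ^ 2 :=
    Finset.sum_congr rfl fun i hi => by rw [mul_pow, Real.sq_sqrt (ha i hi)]
  rw [e1, e2, e3] at h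
  have hA : 0 ≤ ∑ i ∈ s, a i := Finset.sum_nonneg ha
  rw [← Real.sqrt_mul hA]
  exact Real.le_sqrt_of_sq_le h

/-- The splitting of the first moment, on a finite set. -/
theorem split (f : Finset ℝ) (a v r : ℝ → ℝ) (far : ℝ → Prop) [DecidablePred far] (θ V : ℝ)
    (ha : ∀ γ ∈ f, 0 ≤ a γ) (hr : ∀ γ ∈ f, r γ ≤ v γ) (hv : ∀ γ ∈ f, 0 ≤ v γ) (hθ : 0 ≤ θ)
    (hV : ∑ γ ∈ f, a γ * v γ ^ 2 ≤ V) :
    ∑ γ ∈ f, a γ * r γ ≤
      Real.sqrt (∑ γ ∈ f.filter (fun γ => ¬ far γ ∧ θ ≤ v γ), a γ) * Real.sqrt V +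
      θ * ∑ γ ∈ f, a γ + Real.sqrt (∑ γ ∈ f.filter (fun γ => far γ), a γ) * Real.sqrt V := by
  have hsub : ∀ s : Finset ℝ, s ⊆ f → ∑ γ ∈ s, a γ * v γ ≤
      Real.sqrt (∑ γ ∈ s, a γ) * Real.sqrt V := by
    intro s hs
    refine (cs s a v fun i hi => ha i (hs hi)).trans ?_
    refine mul_le_mul_of_nonneg_left (Real.sqrt_le_sqrt ?_) (Real.sqrt_nonneg _)
    exact (Finset.sum_le_sum_of_subset_of_nonneg hs fun i hi _ =>
      mul_nonneg (ha i hi) (sq_nonneg _)).trans hV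
  have h1 := hsub (f.filter (fun γ => ¬ far γ ∧ θ ≤ v γ)) (Finset.filter_subset _ _)
  have h2 := hsub (f.filter (fun γ => far γ)) (Finset.filter_subset _ _)
  have h3 : ∑ γ ∈ f, a γ * r γ ≤ ∑ γ ∈ f.filter (fun γ => ¬ far γ ∧ θ ≤ v γ), a γ * v γ +
      θ * ∑ γ ∈ f, a γ + ∑ γ ∈ f.filter (fun γ => far γ), a γ * v γ := by
    rw [Finset.sum_filter, Finset.sum_filter, Finset.mul_sum, ← Finset.sum_add_distrib,
      ← Finset.sum_add_distrib]
    refine Finset.sum_le_sum fun γ hγ => ?_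
    have p0 := ha γ hγ
    have p1 := mul_le_mul_of_nonneg_left (hr γ hγ) p0
    have p2 := mul_nonneg p0 (hv γ hγ)
    have p3 := mul_nonneg hθ p0
    by_cases hf : far γ
    · simp only [hf, not_true_eq_false, false_and, if_false, if_true]
      linarith
    · by_cases hc : θ ≤ v γ
      · simp only [hf, hc, not_false_eq_true, and_self, if_true, if_false]
        linarith
      · simp only [hf, hc, not_false_eq_true, and_false, if_false]
        have p4 : a γ * v γ ≤ θ * a γ := by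
          rw [mul_comm θ]
          exact mul_le_mul_of_nonneg_left (not_le.1 hc).le p0
        linarith
  linarith

/-- The numerical part. -/
theorem numer {m κ S V0 V1 V2 F η : ℝ} (hκm : κ < m) (hm2 : 0 < V2)
    (h : V1 ≤ Real.sqrt S * Real.sqrt V2 + η * V0 + Real.sqrt F * Real.sqrt V2)
    (h1 : m - κ / 3 ≤ V1) (h0 : η * V0 ≤ κ / 3) (hF : Real.sqrt F * Real.sqrt V2 ≤ κ / 3)
    (hS : 0 ≤ S) : (m - κ) ^ 2 / V2 ≤ S := by
  have h2 : m - κ ≤ Real.sqrt S * Real.sqrt V2 := by linarith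
  have h3 : 0 ≤ m - κ := by linarith
  have h4 := pow_le_pow_left₀ h3 h2 2
  rw [mul_pow, Real.sq_sqrt hS, Real.sq_sqrt hm2.le] at h4
  rwa [div_le_iff₀ hm2]

/-- (GLB) -/
theorem glb (hLIM : LimStatement) (hZN : ZNStatement) (hFAR : FarStatement)
    (hZ : ZfacStatement) : GlbStatement := by
  classical
  intro th c1 c2 ε hth hth2 hm1 hε
  set m := m1 th c1 c2 with hm
  have hm2 : 0 < m2 th c1 c2 := by
    have h1 : 0 ≤ (c1 ^ 2 + 2 * c1 * c2 + 4 / 3 * c2 ^ 2) / th :=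
      div_nonneg (by nlinarith [sq_nonneg (c1 + c2), sq_nonneg c2]) hth.le
    have h2 : m2 th c1 c2 = m ^ 2 +
        ((c1 + c2) ^ 2 + (c1 ^ 2 + 2 * c1 * c2 + 4 / 3 * c2 ^ 2) / th) / 12 := rfl
    rw [h2]
    have h3 : 0 ≤ (c1 + c2) ^ 2 := sq_nonneg _
    have h4 : 0 < m ^ 2 := by positivity
    positivity
  set M := m2 th c1 c2 with hM
  -- choice of `κ`
  obtain ⟨κ, hκ0, hκm, hκ⟩ : ∃ κ : ℝ, 0 < κ ∧ κ < m ∧
      m ^ 2 / M - ε ≤ (m - κ) ^ 2 / (M + κ) := by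
    have hc : ContinuousAt (fun x : ℝ => (m - x) ^ 2 / (M + x)) 0 := by
      refine ContinuousAt.div (by fun_prop) (by fun_prop) ?_
      simpa using hm2.ne'
    have h0 : Tendsto (fun x : ℝ => (m - x) ^ 2 / (M + x)) (𝓝[>] 0) (𝓝 (m ^ 2 / M)) := by
      have := hc.tendsto
      simp only [sub_zero, add_zero] at this
      exact this.mono_left nhdsWithin_le_nhds
    have h1 := h0.eventually (eventually_ge_nhds (show m ^ 2 / M - ε < m ^ 2 / M by linarith))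
    have h2 : ∀ᶠ x : ℝ in 𝓝[>] 0, x < m := by
      have : ∀ᶠ x : ℝ in 𝓝 0, x < m := eventually_lt_nhds hm1
      exact this.filter_mono nhdsWithin_le_nhds
    have h3 : ∀ᶠ x : ℝ in 𝓝[>] 0, (0 : ℝ) < x := self_mem_nhdsWithin
    obtain ⟨x, hx⟩ := (h1.and (h2.and h3)).exists
    exact ⟨x, hx.2.2, hx.2.1, hx.1⟩
  have hMκ : 0 < M + κ := by linarith
  set η : ℝ := min 1 (κ / 6) with hη
  have hη0 : 0 < η := lt_min one_pos (by linarith)
  have hη6 : η ≤ κ / 6 := min_le_right _ _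
  set ε' : ℝ := (κ / 3) ^ 2 / (M + κ) with hε'
  have hε'0 : 0 < ε' := by positivity
  obtain ⟨A, hA1, hfar⟩ := hFAR ε' hε'0
  refine ⟨A, η, hA1, hη0, min_le_left _ _, ?_⟩
  obtain ⟨hL1, hL2⟩ := hLIM th c1 c2 hth hth2
  have e1 := hL1.eventually (eventually_ge_nhds (show m - κ / 3 < m by linarith))
  have e2 := hL2.eventually (eventually_le_nhds (show M < M + κ by linarith))
  have e2' := hL2.eventually (eventually_gt_nhds hm2)
  have e3 := (show Tendsto _ _ _ from hZN).eventually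
    (eventually_le_nhds (show (1 : ℝ) < 2 by norm_num))
  filter_upwards [e1, e2, e2', e3, hfar, eventually_gt_atTop (1 : ℝ)] with T h1 h2 h2' h3 h4 hT
  have hf : (zset T).Finite := hZ.2.2.2.2.2.2 T
  have hL : 0 < Real.log T := Real.log_pos hT
  have hcG : 0 < cG T := cG_pos hT
  set L := Real.log T with hLdef
  set N := cG T * L with hN
  have hN0 : 0 < N := mul_pos hcG hL
  set a : ℝ → ℝ := fun γ => (mz γ : ℝ) * wt T γ with ha
  set v : ℝ → ℂ := fun γ => vv th c1 c2 T (1 / 2 + γ * I) with hv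
  have ha0 : ∀ γ, 0 ≤ a γ := fun γ => mul_nonneg (Nat.cast_nonneg _) (Real.exp_pos _).le
  have s1 : (ZS T (vv th c1 c2 T)).re = ∑ γ ∈ hf.toFinset, a γ * (v γ).re :=
    P4.H70.ZS_re_eq_sum hf _
  have s2 : (ZS T (fun s => vv th c1 c2 T s * (starRingEnd ℂ) (vv th c1 c2 T s))).re =
      ∑ γ ∈ hf.toFinset, a γ * ‖v γ‖ ^ 2 := by
    rw [P4.H70.ZS_re_eq_sum hf]
    refine Finset.sum_congr rfl fun γ _ => ?_
    have : (vv th c1 c2 T (1 / 2 + γ * I) *
        (starRingEnd ℂ) (vv th c1 c2 T (1 / 2 + γ * I))).re = ‖v γ‖ ^ 2 := by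
      rw [Complex.mul_conj, Complex.normSq_eq_norm_sq, Complex.ofReal_re]
    simp only [this, ha]
  have s3 : (ZS T (fun _ => 1)).re = ∑ γ ∈ hf.toFinset, a γ := by
    rw [P4.H70.ZS_re_eq_sum hf]
    refine Finset.sum_congr rfl fun γ _ => ?_
    simp only [Complex.one_re, mul_one, ha]
  -- the far zeros
  have s4 : ∑ᶠ γ ∈ {γ | γ ∈ zset T ∧ A * DD T < |γ - T|}, (mz γ : ℝ) * wt T γ =
      ∑ γ ∈ hf.toFinset.filter (fun γ => A * DD T < |γ - T|), a γ := by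
    have hset : {γ | γ ∈ zset T ∧ A * DD T < |γ - T|} =
        ((hf.toFinset.filter (fun γ => A * DD T < |γ - T|) : Finset ℝ) : Set ℝ) := by
      ext γ
      simp
    rw [hset, finsum_mem_coe_finset]
  -- the good zeros
  have s5 : ∑ᶠ γ ∈ Gset th c1 c2 A η T, wt T γ =
      ∑ γ ∈ hf.toFinset.filter (fun γ => ¬ A * DD T < |γ - T| ∧ η * L ≤ ‖v γ‖), a γ := by
    have hset : Gset th c1 c2 A η T =
        ((hf.toFinset.filter (fun γ => ¬ A * DD T < |γ - T| ∧ η * L ≤ ‖v γ‖) : Finset ℝ) :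
          Set ℝ) := by
      ext γ
      simp [Gset, hv, hLdef]
    rw [hset, finsum_mem_coe_finset]
    refine Finset.sum_congr rfl fun γ hγ => ?_
    rw [Finset.mem_filter, Set.Finite.mem_toFinset] at hγ
    have hvne : v γ ≠ 0 := by
      intro h
      have := hγ.2.2
      rw [h, norm_zero] at this
      exact absurd this (not_le.2 (mul_pos hη0 hL))
    have hd : deriv riemannZeta (1 / 2 + γ * I) ≠ 0 := by
      intro h
      exact hvne (by simp only [hv, vv, h, zero_mul])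
    have hz0 : riemannZeta (1 / 2 + γ * I) = 0 := hγ.1.2.2
    have g1 : 1 ≤ mz γ := hZ.2.2.1 γ hz0
    have g2 : ¬ 2 ≤ mz γ := fun h => hd (hZ.2.2.2.2.1 γ h)
    have g3 : mz γ = 1 := by omega
    simp only [ha, g3, Nat.cast_one, one_mul]
  rw [s5]
  set S := ∑ γ ∈ hf.toFinset.filter (fun γ => ¬ A * DD T < |γ - T| ∧ η * L ≤ ‖v γ‖), a γ with hS
  set F := ∑ γ ∈ hf.toFinset.filter (fun γ => A * DD T < |γ - T|), a γ with hF
  set V := ∑ γ ∈ hf.toFinset, a γ * ‖v γ‖ ^ 2 with hVd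
  have hS0 : 0 ≤ S := Finset.sum_nonneg fun γ _ => ha0 γ
  have hF0 : 0 ≤ F := Finset.sum_nonneg fun γ _ => ha0 γ
  have hV0 : 0 ≤ V := Finset.sum_nonneg fun γ _ => mul_nonneg (ha0 γ) (sq_nonneg _)
  have h4' : F ≤ ε' * N := by rw [← s4]; exact h4
  rw [s1] at h1
  rw [s2] at h2 h2'
  rw [s3] at h3
  have key := split hf.toFinset a (fun γ => ‖v γ‖) (fun γ => (v γ).re)
    (fun γ => A * DD T < |γ - T|) (η * L) V (fun γ _ => ha0 γ)
    (fun γ _ => Complex.re_le_norm _) (fun γ _ => norm_nonneg _) (mul_pos hη0 hL).le le_rfl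
  -- normalise
  have hNL : 0 < cG T * L ^ 2 := by positivity
  have hNLL : 0 < cG T * L ^ 3 := by positivity
  have e5 : Real.sqrt (S / N) * Real.sqrt (V / (cG T * L ^ 3)) =
      Real.sqrt S * Real.sqrt V / (cG T * L ^ 2) := by
    rw [← Real.sqrt_mul (div_nonneg hS0 hN0.le), ← Real.sqrt_mul hS0]
    have : S / N * (V / (cG T * L ^ 3)) = S * V / (cG T * L ^ 2) ^ 2 := by
      rw [hN]
      field_simp
    rw [this, Real.sqrt_div (mul_nonneg hS0 hV0), Real.sqrt_sq hNL.le]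
  have e6 : Real.sqrt (F / N) * Real.sqrt (V / (cG T * L ^ 3)) =
      Real.sqrt F * Real.sqrt V / (cG T * L ^ 2) := by
    rw [← Real.sqrt_mul (div_nonneg hF0 hN0.le), ← Real.sqrt_mul hF0]
    have : F / N * (V / (cG T * L ^ 3)) = F * V / (cG T * L ^ 2) ^ 2 := by
      rw [hN]
      field_simp
    rw [this, Real.sqrt_div (mul_nonneg hF0 hV0), Real.sqrt_sq hNL.le]
  have e7 : η * ((∑ γ ∈ hf.toFinset, a γ) / N) =
      η * L * (∑ γ ∈ hf.toFinset, a γ) / (cG T * L ^ 2) := by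
    rw [hN]
    field_simp
  have key2 : (∑ γ ∈ hf.toFinset, a γ * (v γ).re) / (cG T * L ^ 2) ≤
      Real.sqrt (S / N) * Real.sqrt (V / (cG T * L ^ 3)) +
      η * ((∑ γ ∈ hf.toFinset, a γ) / N) +
      Real.sqrt (F / N) * Real.sqrt (V / (cG T * L ^ 3)) := by
    rw [e5, e6, e7, ← add_div, ← add_div]
    exact div_le_div_of_nonneg_right key hNL.le
  have h0' : η * ((∑ γ ∈ hf.toFinset, a γ) / N) ≤ κ / 3 := by
    have h5 := mul_le_mul_of_nonneg_left h3 hη0.le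
    linarith
  have hF' : Real.sqrt (F / N) * Real.sqrt (V / (cG T * L ^ 3)) ≤ κ / 3 := by
    have g1 : F / N ≤ ε' := by rw [div_le_iff₀ hN0]; exact h4'
    rw [← Real.sqrt_mul (div_nonneg hF0 hN0.le)]
    have g2 : F / N * (V / (cG T * L ^ 3)) ≤ (κ / 3) ^ 2 := by
      have g3 := mul_le_mul g1 h2 (div_nonneg hV0 hNLL.le) hε'0.le
      rwa [hε', div_mul_cancel₀ _ hMκ.ne'] at g3
    calc Real.sqrt (F / N * (V / (cG T * L ^ 3))) ≤ Real.sqrt ((κ / 3) ^ 2) :=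
          Real.sqrt_le_sqrt g2
      _ = κ / 3 := Real.sqrt_sq (by linarith)
  have fin := numer hκm h2' key2 h1 h0' hF' (div_nonneg hS0 hN0.le)
  have fin2 : (m - κ) ^ 2 / (M + κ) ≤ S / N := by
    refine le_trans ?_ fin
    exact div_le_div_of_nonneg_left (sq_nonneg _) h2' h2
  have fin3 := hκ.trans fin2
  rwa [le_div_iff₀ hN0] at fin3

end Pool.Agent.Lib.MP_6bc78b_nt.MS.QZ.H40
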